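import Mathlib

namespace Pool.Agent.Results.MP_393150_al.Cancellative

/-- `a ∼ₒ b`: there are `g, h ∈ S` with `a g = g b` and `b h = h a`. -/
def OConj {S : Type} [Semigroup S] (a b : S) : Prop :=
  ∃ g h : S, a * g = g * b ∧ b * h = h * a

/-- `∼ₒ` is a congruence on `S`. -/
def IsCongruence (S : Type) [Semigroup S] : Prop :=
  ∀ a b c d : S, OConj a b → OConj c d → OConj (a * c) (b * d)

theorem oconj_refl {S : Type} [Semigroup S] (a : S) : OConj a a := ⟨a, a, rfl, rfl⟩

theorem oconj_symm {S : Type} [Semigroup S] {a b : S} (h : OConj a b) : OConj b a := by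
  obtain ⟨g, h, h1, h2⟩ := h
  exact ⟨h, g, h2, h1⟩

theorem oconj_trans {S : Type} [Semigroup S] {a b c : S} (h : OConj a b) (h' : OConj b c) :
    OConj a c := by
  obtain ⟨g, h, h1, h2⟩ := h
  obtain ⟨g', h', h3, h4⟩ := h'
  refine ⟨g * g', h' * h, ?_, ?_⟩
  · rw [← mul_assoc, h1, mul_assoc, h3, mul_assoc]
  · rw [← mul_assoc, h4, mul_assoc, h2, mul_assoc]

/-- `∼ₒ` as a congruence relation (Mathlib's `Con`), when it is a congruence. -/
def oCon (S : Type) [Semigroup S] (h : IsCongruence S) : Con S where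
  r := OConj
  iseqv := ⟨oconj_refl, oconj_symm, oconj_trans⟩
  mul' := fun h1 h2 => h _ _ _ _ h1 h2

theorem idem_conj {S : Type} [Semigroup S] {e f : S} (he : e * e = e) (hf : f * f = f) :
    OConj e f :=
  ⟨e * f, f * e, by rw [← mul_assoc, he, mul_assoc, hf], by rw [← mul_assoc, hf, mul_assoc, he]⟩

/-- positive powers -/
def pw {S : Type} [Semigroup S] (a : S) : ℕ → S
  | 0 => a
  | n + 1 => pw a n * a

theorem pw_add {S : Type} [Semigroup S] (a : S) (m n : ℕ) :
    pw a m * pw a n = pw a (m + n + 1) := by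
  induction n with
  | zero => rfl
  | succ n ih =>
    show pw a m * (pw a n * a) = pw a (m + n + 1) * a
    rw [← mul_assoc, ih]

theorem exists_idem {S : Type} [Semigroup S] [Finite S] (a : S) :
    ∃ n, pw a n * pw a n = pw a n := by
  letI : TopologicalSpace S := ⊥
  haveI : DiscreteTopology S := ⟨rfl⟩
  obtain ⟨m, ⟨n, rfl⟩, hm⟩ := exists_idempotent_in_compact_subsemigroup
    (M := S) (fun _ => continuous_of_discreteTopology) (Set.range (pw a)) ⟨_, 0, rfl⟩
    (Set.toFinite _).isCompact (by
      rintro _ ⟨m, rfl⟩ _ ⟨n, rfl⟩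
      exact ⟨m + n + 1, (pw_add a m n).symm⟩)
  exact ⟨n, hm⟩

theorem pw_comm {S : Type} [Semigroup S] (a : S) (n : ℕ) : a * pw a n = pw a n * a := by
  have h1 := pw_add a 0 n
  have h2 := pw_add a n 0
  rw [Nat.zero_add] at h1
  rw [Nat.add_zero] at h2
  exact h1.trans h2.symm

theorem conj_mul_idem {S : Type} [Semigroup S] [Finite S] (hc : IsCongruence S) (y e : S)
    (he : e * e = e) : OConj y (e * y) ∧ OConj y (y * e) := by
  obtain ⟨n, hn⟩ := exists_idem y
  have hcomm := pw_comm y n
  set f := pw y n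
  have h1 : OConj y (f * y) := by
    refine ⟨f, f, ?_, ?_⟩
    · rw [← mul_assoc, hn, hcomm]
    · rw [mul_assoc, hcomm, ← mul_assoc, hn]
  refine ⟨oconj_trans h1 (hc _ _ _ _ (idem_conj hn he) (oconj_refl y)), ?_⟩
  rw [← hcomm] at h1
  exact oconj_trans h1 (hc _ _ _ _ (oconj_refl y) (idem_conj hn he))

/-- For every finite semigroup `S` on which `∼ₒ` is a congruence, the quotient semigroup
`S / ∼ₒ` is cancellative (left and right). -/
theorem result : ∀ (S : Type) [Semigroup S] [Finite S] (h : IsCongruence S),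
    (∀ x y z : (oCon S h).Quotient, x * y = x * z → y = z) ∧
    (∀ x y z : (oCon S h).Quotient, y * x = z * x → y = z) := by
  intro S _ _ hc
  have key : ∀ x : S, ∃ u : S, (u * x) * (u * x) = u * x ∧ x * u = u * x := by
    intro x
    obtain ⟨n, hn⟩ := exists_idem x
    have e1 : pw x (n + n) * x = pw x n := by
      rw [← hn, pw_add]; rfl
    exact ⟨pw x (n + n), by rw [e1, hn], pw_comm x _⟩
  constructor
  · intro x y z
    induction x using Con.induction_on with | H x => ?_
    induction y using Con.induction_on with | H y => ?_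
    induction z using Con.induction_on with | H z => ?_
    intro h
    rw [← Con.coe_mul, ← Con.coe_mul, Con.eq] at h
    rw [Con.eq]
    obtain ⟨u, hu, -⟩ := key x
    have h2 : OConj (u * (x * y)) (u * (x * z)) := hc _ _ _ _ (oconj_refl u) h
    rw [← mul_assoc, ← mul_assoc] at h2
    exact oconj_trans (oconj_trans (conj_mul_idem hc y _ hu).1 h2)
      (oconj_symm (conj_mul_idem hc z _ hu).1)
  · intro x y z
    induction x using Con.induction_on with | H x => ?_
    induction y using Con.induction_on with | H y => ?_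
    induction z using Con.induction_on with | H z => ?_
    intro h
    rw [← Con.coe_mul, ← Con.coe_mul, Con.eq] at h
    rw [Con.eq]
    obtain ⟨u, hu, hcomm⟩ := key x
    have h2 : OConj ((y * x) * u) ((z * x) * u) := hc _ _ _ _ h (oconj_refl u)
    rw [mul_assoc, mul_assoc, hcomm] at h2
    exact oconj_trans (oconj_trans (conj_mul_idem hc y _ hu).2 h2)
      (oconj_symm (conj_mul_idem hc z _ hu).2)

end Pool.Agent.Results.MP_393150_al.Cancellative
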